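import Pool.Agent.D0H38.TD.Stm5

set_option autoImplicit false

/-! Module VB of project TE (helper38): Vizing's theorem with bins. -/

namespace Pool.Agent.D0H58.TE

open Finset Pool.Q6.CI Pool.Q11.TwoEnd

section

variable {V : Type} [DecidableEq V] (U : Finset V) (bin : V → Fin 6)

/-- the image of a vertex -/
def im (u : V) : Option (V ⊕ Fin 6) := if u ∈ U then some (Sum.inr (bin u)) else some (Sum.inl u)

theorem im_ne_none (u : V) : im U bin u ≠ none := by
  unfold im
  split_ifs <;> simp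

theorem im_inl {u w : V} (h : im U bin u = some (Sum.inl w)) : u ∉ U ∧ u = w := by
  unfold im at h
  split_ifs at h with hu
  · simp at h
  · refine ⟨hu, ?_⟩
    simpa using h

theorem im_inr {u : V} {b : Fin 6} (h : im U bin u = some (Sum.inr b)) : u ∈ U ∧ bin u = b := by
  unfold im at h
  split_ifs at h with hu
  · refine ⟨hu, ?_⟩
    simpa using h
  · simp at h

theorem im_of_not_mem {u : V} (h : u ∉ U) : im U bin u = some (Sum.inl u) := by
  unfold im
  rw [if_neg h]

theorem im_of_mem {u : V} (h : u ∈ U) : im U bin u = some (Sum.inr (bin u)) := by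
  unfold im
  rw [if_pos h]

theorem im_eq {u v : V} (h : im U bin u = im U bin v) : u = v ∨ (u ∈ U ∧ v ∈ U ∧ bin u = bin v) := by
  by_cases hu : u ∈ U
  · rw [im_of_mem U bin hu] at h
    obtain ⟨h1, h2⟩ := im_inr U bin h.symm
    exact Or.inr ⟨hu, h1, h2.symm⟩
  · rw [im_of_not_mem U bin hu] at h
    exact Or.inl (im_inl U bin h.symm).2.symm

end

theorem dg_le_card {W : Type} [Fintype W] (H : SimpleGraph W) (x : W) (S : Finset W)
    (h : ∀ y, H.Adj x y → y ∈ S) : dg H x ≤ S.card := by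
  classical
  unfold dg
  refine card_le_card fun y hy => ?_
  exact h y (mem_filter.1 hy).2

theorem t_VB : Pool.Agent.D0H38.TD.S_VSP → Pool.Agent.D0H38.TD.S_VB := by
  classical
  intro hVSP V _ _ R q U Z Sp bin hU hbin hsum hdeg hdeg' hZU hZq hSU hSp
  set φ := im U bin with hφ
  let H : SimpleGraph (Option (V ⊕ Fin 6)) :=
    { Adj := fun x y => (∃ u v, R.Adj u v ∧ φ u = x ∧ φ v = y) ∨ (x = none ∧ ∃ w ∈ Z, y = φ w) ∨
        (y = none ∧ ∃ w ∈ Z, x = φ w)
      symm := ⟨by
        rintro x y (⟨u, v, h, h1, h2⟩ | ⟨h1, w, hw, h2⟩ | ⟨h1, w, hw, h2⟩)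
        · exact Or.inl ⟨v, u, h.symm, h2, h1⟩
        · exact Or.inr (Or.inr ⟨h1, w, hw, h2⟩)
        · exact Or.inr (Or.inl ⟨h1, w, hw, h2⟩)⟩
      loopless := ⟨by
        rintro x (⟨u, v, h, h1, h2⟩ | ⟨h1, w, hw, h2⟩ | ⟨h1, w, hw, h2⟩)
        · rcases im_eq U bin (h1.trans h2.symm) with h3 | ⟨h3, h4, _⟩
          · exact h.ne h3
          · exact hU u h3 v h4 h
        · exact im_ne_none U bin w (h2.symm.trans h1)
        · exact im_ne_none U bin w (h2.symm.trans h1)⟩ }
  have hHR : ∀ u v, R.Adj u v → H.Adj (φ u) (φ v) := fun u v h => Or.inl ⟨u, v, h, rfl, rfl⟩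
  have hHZ : ∀ w ∈ Z, H.Adj none (φ w) := fun w hw => Or.inr (Or.inl ⟨rfl, w, hw, rfl⟩)
  have hq : 1 ≤ q := by omega
  have hZnot : ∀ w ∈ Z, w ∉ U := fun w hw hwU => (Finset.disjoint_left.1 hZU hw) hwU
  have hSnot : ∀ w ∈ Sp, w ∉ U := fun w hw hwU => (Finset.disjoint_left.1 hSU hw) hwU
  have hncard : ∀ v, (R.neighborSet v).ncard = (univ.filter fun w => R.Adj v w).card := by
    intro v
    rw [← Set.ncard_coe_finset]
    congr 1
    ext w
    simp
  -- degree of an ordinary vertex
  have hd1 : ∀ w, w ∉ U → dg H (some (Sum.inl w)) ≤ (R.neighborSet w).ncard + (if w ∈ Z then 1 else 0) := by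
    intro w hw
    have hsub : ∀ y, H.Adj (some (Sum.inl w)) y → y ∈
        ((univ.filter fun v => R.Adj w v).image φ) ∪ (if w ∈ Z then {none} else ∅) := by
      intro y hy
      rw [mem_union]
      rcases hy with ⟨u, v, h, h1, h2⟩ | ⟨h1, _⟩ | ⟨h1, w', hw', h2⟩
      · left
        have h3 := (im_inl U bin h1).2
        subst h3
        exact mem_image.2 ⟨v, mem_filter.2 ⟨mem_univ _, h⟩, h2⟩
      · simp at h1
      · right
        have h3 := (im_inl U bin h2.symm).2
        subst h3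
        rw [if_pos hw', h1]
        exact mem_singleton_self _
    refine (dg_le_card H _ _ hsub).trans ((card_union_le _ _).trans ?_)
    rw [hncard w]
    refine add_le_add card_image_le ?_
    split_ifs <;> simp
  have hd2 : ∀ w, w ∈ U → dg H (some (Sum.inl w)) = 0 := by
    intro w hw
    refine Nat.le_zero.1 ((dg_le_card H _ ∅ ?_).trans_eq Finset.card_empty)
    rintro y (⟨u, v, h, h1, h2⟩ | ⟨h1, _⟩ | ⟨h1, w', hw', h2⟩)
    · exfalso
      obtain ⟨h3, h4⟩ := im_inl U bin h1
      subst h4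
      exact h3 hw
    · simp at h1
    · exfalso
      obtain ⟨h3, h4⟩ := im_inl U bin h2.symm
      subst h4
      exact h3 hw
  have hd3 : ∀ b, dg H (some (Sum.inr b)) < q := by
    intro b
    refine lt_of_le_of_lt ?_ (hsum b)
    have hsub : ∀ y, H.Adj (some (Sum.inr b)) y → y ∈
        (U.filter fun u => bin u = b).biUnion fun u => (univ.filter fun v => R.Adj u v).image φ := by
      intro y hy
      rw [mem_biUnion]
      rcases hy with ⟨u, v, h, h1, h2⟩ | ⟨h1, _⟩ | ⟨h1, w', hw', h2⟩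
      · obtain ⟨h3, h4⟩ := im_inr U bin h1
        exact ⟨u, mem_filter.2 ⟨h3, h4⟩, mem_image.2 ⟨v, mem_filter.2 ⟨mem_univ _, h⟩, h2⟩⟩
      · simp at h1
      · obtain ⟨h3, h4⟩ := im_inr U bin h2.symm
        exact absurd h3 (hZnot w' hw')
    refine (dg_le_card H _ _ hsub).trans (card_biUnion_le.trans (Finset.sum_le_sum fun u _ => ?_))
    rw [hncard u]
    exact card_image_le
  have hd4 : dg H none < q := by
    refine lt_of_le_of_lt ?_ hZq
    have hsub : ∀ y, H.Adj none y → y ∈ Z.image φ := by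
      intro y hy
      rcases hy with ⟨u, v, h, h1, h2⟩ | ⟨_, w, hw, h2⟩ | ⟨h1, w', hw', h2⟩
      · exact absurd h1 (im_ne_none U bin u)
      · exact mem_image.2 ⟨w, hw, h2.symm⟩
      · exact absurd h2.symm (im_ne_none U bin w')
    exact (dg_le_card H _ _ hsub).trans card_image_le
  obtain ⟨c, hc⟩ := hVSP (Option (V ⊕ Fin 6)) H q (Sp.image (fun w => some (Sum.inl w))) hq
    (by
      rintro (_ | (w | b))
      · exact hd4.le
      · by_cases hw : w ∈ U
        · have := hd2 w hw
          omega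
        · exact (hd1 w hw).trans (hdeg w hw)
      · exact (hd3 b).le)
    (by
      rintro (_ | (w | b)) hx
      · exact hd4
      · by_cases hw : w ∈ U
        · have := hd2 w hw
          omega
        · refine lt_of_le_of_lt (hd1 w hw) (hdeg' w hw fun hwS => hx ?_)
          exact mem_image.2 ⟨w, hwS, rfl⟩
      · exact hd3 b)
    (by
      intro x hx y hy hxy
      obtain ⟨u, hu, rfl⟩ := mem_image.1 hx
      obtain ⟨v, hv, rfl⟩ := mem_image.1 hy
      rcases hxy with ⟨u', v', h, h1, h2⟩ | ⟨h1, _⟩ | ⟨h1, _⟩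
      · have h3 := (im_inl U bin h1).2
        have h4 := (im_inl U bin h2).2
        subst h3
        subst h4
        exact hSp _ hu _ hv h
      · simp at h1
      · simp at h1)
  refine ⟨fun w => c none (φ w), fun u v => c (φ u) (φ v), ?_, ?_, ?_, ?_, ?_, ?_⟩
  · intro u v h
    exact ⟨hc.symm _ _ (hHR u v h), hc.lt _ _ (hHR u v h)⟩
  · intro u v w h h' hne he
    have h1 := hc.inj _ _ _ (hHR u v h) (hHR u w h') he
    rcases im_eq U bin h1 with h2 | ⟨h2, h3, h4⟩
    · exact hne h2
    · exact hbin v h2 w h3 hne h4 u h.symm h'.symm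
  · intro w hw
    exact hc.lt _ _ (hHZ w hw)
  · intro w hw w' hw' he
    have h1 := hc.inj _ _ _ (hHZ w hw) (hHZ w' hw') he
    rcases im_eq U bin h1 with h2 | ⟨h2, h3, h4⟩
    · exact h2
    · exact absurd h2 (hZnot w hw)
  · intro w hw x hx he
    have h1 : c none (φ w) = c (φ w) none := hc.symm _ _ (hHZ w hw)
    have h2 : c (φ w) (φ x) = c (φ w) none := he.trans h1
    exact im_ne_none U bin x (hc.inj _ _ _ (hHR w x hx) (hHZ w hw).symm h2)
  · intro u hu v hv hne hb x y hx hy he
    have h0 : φ u = φ v := by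
      rw [hφ, im_of_mem U bin hu, im_of_mem U bin hv, hb]
    have h1 : c (φ u) (φ x) = c (φ u) (φ y) := by
      have he' : c (φ u) (φ x) = c (φ v) (φ y) := he
      rw [he', h0]
    have hy' : H.Adj (φ u) (φ y) := by
      rw [h0]
      exact hHR v y hy
    rcases im_eq U bin (hc.inj _ _ _ (hHR u x hx) hy' h1) with h2 | ⟨h2, h3, h4⟩
    · subst h2
      exact hbin u hu v hv hne hb x hx hy
    · exact hU u hu x h2 hx

end Pool.Agent.D0H58.TE
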