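import Pool.Agent.D0H38.TD.Stm5

set_option autoImplicit false

/-! Module VSP of project TE (helper38): Vizing's theorem with an independent set of vertices of full degree. -/

namespace Pool.Agent.D0H58.TE

open Finset Pool.Q6.CI Pool.Q11.TwoEnd

theorem t_VSP : Pool.Agent.D0H38.TD.S_VSP := by
  classical
  intro V _ G n Sp hn hdg hlt hind
  have key : ∀ T : Finset V, T ⊆ Sp → EC (ins G (Spᶜ ∪ T)) n := by
    intro T
    induction T using Finset.induction_on with
    | empty =>
      intro _
      have hd : ∀ v, dg (ins G (Spᶜ ∪ ∅)) v ≤ n - 1 := by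
        intro v
        by_cases hv : v ∈ Sp
        · have : dg (ins G (Spᶜ ∪ ∅)) v = 0 := by
            unfold dg
            rw [Finset.card_eq_zero, Finset.filter_eq_empty_iff]
            intro w _ h
            have := h.2.1
            simp [hv] at this
          omega
        · have h1 := dg_mono (G := ins G (Spᶜ ∪ ∅)) (G' := G) (fun _ _ h => h.1) v
          have h2 := hlt v hv
          omega
      have := vizing hd
      rwa [Nat.sub_add_cancel hn] at this
    | insert v T hvT ih =>
      intro hT
      have hvS : v ∈ Sp := hT (mem_insert_self _ _)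
      have hTS : T ⊆ Sp := fun x hx => hT (mem_insert_of_mem hx)
      have hle : ins G (Spᶜ ∪ insert v T) ≤ G := fun _ _ h => h.1
      have hnb : ∀ w, (ins G (Spᶜ ∪ insert v T)).Adj v w → dg (ins G (Spᶜ ∪ insert v T)) w < n := by
        intro w hw
        have hwS : w ∉ Sp := fun hwS => hind v hvS w hwS hw.1
        exact lt_of_le_of_lt (dg_mono hle w) (hlt w hwS)
      refine ext_vertex (v := v) ((dg_mono hle v).trans (hdg v)) (fun w hw => (hnb w hw).le) ?_ ?_
      · intro w w' hw _ h _
        have := hnb w hw
        omega
      · refine (ih hTS).mono ?_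
        intro a b hab
        obtain ⟨⟨h1, h2, h3⟩, h4, h5⟩ := hab
        refine ⟨h1, ?_, ?_⟩
        · rw [mem_union, mem_insert] at h2
          rw [mem_union]
          tauto
        · rw [mem_union, mem_insert] at h3
          rw [mem_union]
          tauto
  refine (key Sp (Finset.Subset.refl _)).mono ?_
  intro a b hab
  refine ⟨hab, ?_, ?_⟩ <;> simp [em']

end Pool.Agent.D0H58.TE
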